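import Pool.Agent.Q27.EX.Main

/-!
# Endomorphisms of a group that extend along every homomorphism

Let `α` be an endomorphism of a group `G` such that for every group `H` and every homomorphism
`f : G →* H` there is an endomorphism `β` of `H` with `β f = f α`. Then `α` admits a coherent
choice of such endomorphisms `β`; in fact `α` is an inner automorphism or trivial. It is enough
to assume the existence of `β` for the injective homomorphisms `f`.

Idea of the proof. A noninjective `α` is killed by HNN extensions of `ℤ × (ℤ ≀ G)` in which every
element of `G` is in the normal closure of a given element `≠ 1` of `G`. For an injective `α` take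
a set `R` of triples of elements of `G` such that only the identity is an injective map preserving
`R`, the group `L = ℤ × (ℤ/289 ≀ G)`, and amalgamate `L` with copies of the simple group
`PSL₂(F)`, for a large field `F`, along the subgroups `ℤ × ℤ/289` (the second factor at the
coordinate `1`), `⟨(1, g₀)⟩`, and one cyclic subgroup of order `17` of the base of the wreath
product for every triple in `R`. The endomorphisms of this amalgam which extend `α` are studied by
means of the action on its tree.
-/

set_option autoImplicit false

universe u

namespace Pool.Agent.Results.MP_995dc9_al.InnerOrTrivial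

/-- An endomorphism `α` of `G` is extendable if for every homomorphism `f : G →* H` there is an
endomorphism `β` of `H` with `β ∘ f = f ∘ α`. -/
def Extendable {G : Type u} [Group G] (α : G →* G) : Prop :=
  ∀ (H : Type u) [Group H] (f : G →* H), ∃ β : H →* H, β.comp f = f.comp α

/-- A coherent choice for `α`: endomorphisms `β H f` of `H` for all homomorphisms `f : G →* H`,
such that `(β H f) ∘ f = f ∘ α` and `(β H₂ (h ∘ f)) ∘ h = h ∘ (β H₁ f)` for all homomorphisms
`f : G →* H₁` and `h : H₁ →* H₂`. -/
structure CoherentChoice {G : Type u} [Group G] (α : G →* G) where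
  β : ∀ (H : Type u) [Group H], (G →* H) → (H →* H)
  comp : ∀ (H : Type u) [Group H] (f : G →* H), (β H f).comp f = f.comp α
  coherent : ∀ (H₁ H₂ : Type u) [Group H₁] [Group H₂] (f : G →* H₁) (h : H₁ →* H₂),
    (β H₂ (h.comp f)).comp h = h.comp (β H₁ f)

/-- (1) Every extendable endomorphism admits a coherent choice. (2) If `α` is an endomorphism of
`G` such that for every *injective* homomorphism `f : G →* H` there is an endomorphism `β` of `H`
with `β ∘ f = f ∘ α`, then `α` is an inner automorphism or the trivial endomorphism. -/
theorem result :
    (∀ (G : Type u) [Group G] (α : G →* G), Extendable α → Nonempty (CoherentChoice α)) ∧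
    (∀ (G : Type u) [Group G] (α : G →* G),
      (∀ (H : Type u) [Group H] (f : G →* H), Function.Injective f →
        ∃ β : H →* H, β.comp f = f.comp α) →
      (∃ c : G, ∀ g, α g = c * g * c⁻¹) ∨ ∀ g, α g = 1) := by
  have main : ∀ (G : Type u) [Group G] (α : G →* G),
      (∀ (H : Type u) [Group H] (f : G →* H), Function.Injective f →
        ∃ β : H →* H, β.comp f = f.comp α) →
      (∃ c : G, ∀ g, α g = c * g * c⁻¹) ∨ ∀ g, α g = 1 := by
    intro G _ α h
    have h' : ∀ (H : Type u) [Group H] (f : G →* H), Function.Injective f →
        ∃ β : H →* H, ∀ g, β (f g) = f (α g) := by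
      intro H _ f hf
      obtain ⟨β, hβ⟩ := h H f hf
      exact ⟨β, fun g => DFunLike.congr_fun hβ g⟩
    by_cases hα : Function.Injective α
    · left
      rcases subsingleton_or_nontrivial G with hG | hG
      · exact ⟨1, fun g => Subsingleton.elim _ _⟩
      · exact Q27.EX.inner_of_injective α hα h'
    · right
      rw [injective_iff_map_eq_one] at hα
      push Not at hα
      obtain ⟨g₁, h1, h2⟩ := hα
      exact Q27.EX.trivial_of_not_injective α h' h2 h1
  refine ⟨fun G _ α hα => ?_, main⟩
  rcases main G α (fun H _ f _ => hα H f) with ⟨c, hc⟩ | h1
  · exact ⟨{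
      β := fun H _ f => (MulAut.conj (f c)).toMonoidHom
      comp := fun H _ f => by
        ext g
        show f c * f g * (f c)⁻¹ = f (α g)
        rw [hc, map_mul, map_mul, map_inv]
      coherent := fun H₁ H₂ _ _ f h => by
        ext x
        show h (f c) * h x * (h (f c))⁻¹ = h (f c * x * (f c)⁻¹)
        rw [map_mul, map_mul, map_inv] }⟩
  · exact ⟨{
      β := fun H _ f => 1
      comp := fun H _ f => by
        ext g
        show 1 = f (α g)
        rw [h1, map_one]
      coherent := fun H₁ H₂ _ _ f h => by
        ext x
        show 1 = h 1
        rw [map_one] }⟩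

end Pool.Agent.Results.MP_995dc9_al.InnerOrTrivial
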